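import Mathlib

/-!
# Sets of multiples: `D(x)/x` can exceed `C * D(n)/n` for any constant `C`

Take `Y = 2 ^ h`, let `A` be the set of `Y`-smooth numbers in `(2 ^ j, 2 ^ (j + h)]` and
`n = 2 ^ (j + h)`.  The multiples of `A` up to `n` are exactly the elements of `A`, while the
density of the multiples of `A` is at least `∏_{p < Y} (1 - 1 / p) * ∑_{s ∈ A} 1 / s`.
Smooth numbers in dyadic blocks have subexponential growth, so for a suitable `j` the ratio is
at least `∏_{p < Y} (1 - 1 / p) * 2 ^ (h - 2) / h`, which is unbounded.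
-/

set_option autoImplicit false

namespace Pool.Agent.Lib.MP_e664f7_nt

open Finset Filter Topology

/-- Number of `m ∈ [1, N]` divisible by some element of `A`. -/
def D (A : Finset ℕ) (N : ℕ) : ℕ := ((Finset.Icc 1 N).filter (fun m => ∃ a ∈ A, a ∣ m)).card

/-- `Y`-smooth numbers in `(2 ^ i, 2 ^ (i + 1)]`. -/
noncomputable def blk (Y i : ℕ) : Finset ℕ :=
  by classical exact (Finset.Ioc (2 ^ i) (2 ^ (i + 1))).filter (fun s => s ∈ Nat.smoothNumbers Y)

lemma mem_blk {Y i s : ℕ} : s ∈ blk Y i ↔ (2 ^ i < s ∧ s ≤ 2 ^ (i + 1)) ∧ s ∈ Nat.smoothNumbers Y := by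
  classical
  simp [blk]

lemma two_mem {Y : ℕ} (hY : 3 ≤ Y) : 2 ∈ Nat.smoothNumbers Y := by
  rw [Nat.mem_smoothNumbers]
  refine ⟨by norm_num, ?_⟩
  intro p hp
  have := Nat.le_of_mem_primeFactorsList hp
  omega

lemma blk_mono {Y : ℕ} (hY : 3 ≤ Y) (i : ℕ) : (blk Y i).card ≤ (blk Y (i + 1)).card := by
  apply Finset.card_le_card_of_injOn (fun s => 2 * s)
  · intro s hs
    have hs := mem_blk.mp hs
    apply mem_blk.mpr
    change (2 ^ (i + 1) < 2 * s ∧ 2 * s ≤ 2 ^ (i + 1 + 1)) ∧ 2 * s ∈ Nat.smoothNumbers Y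
    refine ⟨⟨?_, ?_⟩, Nat.mul_mem_smoothNumbers (two_mem hY) hs.2⟩
    · have := hs.1.1; rw [pow_succ]; omega
    · have := hs.1.2; rw [pow_succ 2 (i + 1)]; omega
  · intro a _ b _ h
    simpa using h

lemma blk_mono' {Y : ℕ} (hY : 3 ≤ Y) : Monotone (fun i => (blk Y i).card) :=
  monotone_nat_of_le_succ (blk_mono hY)

lemma blk_zero {Y : ℕ} (hY : 3 ≤ Y) : 1 ≤ (blk Y 0).card := by
  rw [Finset.one_le_card]
  exact ⟨2, mem_blk.mpr ⟨⟨by norm_num, by norm_num⟩, two_mem hY⟩⟩

lemma blk_poly (Y i : ℕ) : (blk Y i).card ≤ (i + 2) ^ Y := by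
  have hb : ∀ s ∈ blk Y i, ∀ p : ℕ, s.factorization p < i + 2 := by
    intro s hs p
    have hs := mem_blk.mp hs
    by_cases hp : p.Prime
    · have : s ≤ p ^ (i + 1) := hs.1.2.trans (Nat.pow_le_pow_left hp.two_le _)
      have := Nat.factorization_le_of_le_pow this
      omega
    · rw [Nat.factorization_eq_zero_of_not_prime s hp]
      omega
  let f : (blk Y i) → (Fin Y → Fin (i + 2)) := fun s p => ⟨(s : ℕ).factorization p, hb s s.2 p⟩
  have hf : Function.Injective f := by
    intro s t hst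
    have hs := mem_blk.mp s.2
    have ht := mem_blk.mp t.2
    apply Subtype.ext
    apply Nat.eq_of_factorization_eq hs.2.1 ht.2.1
    intro p
    by_cases hp : p < Y
    · have := congrFun hst ⟨p, hp⟩
      simpa [f] using this
    · have h0 : ∀ u : ℕ, u ∈ Nat.smoothNumbers Y → u.factorization p = 0 := by
        intro u hu
        by_contra hne
        have hmem : p ∈ u.primeFactorsList := by
          have h1 : p ∈ u.factorization.support := Finsupp.mem_support_iff.mpr hne
          rw [Nat.support_factorization] at h1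
          exact Nat.mem_primeFactors_iff_mem_primeFactorsList.mp h1
        exact hp (hu.2 p hmem)
      rw [h0 _ hs.2, h0 _ ht.2]
  have := Fintype.card_le_of_injective f hf
  simpa using this

/-- Along some step of length `k`, the block sizes grow by a factor at most `2`. -/
lemma exists_slow {Y : ℕ} (hY : 3 ≤ Y) (k : ℕ) :
    ∃ j, (blk Y (j + k)).card ≤ 2 * (blk Y j).card := by
  by_contra hcon
  push Not at hcon
  have hgrow : ∀ m : ℕ, 2 ^ m ≤ (blk Y (m * k)).card := by
    intro m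
    induction m with
    | zero => simpa using blk_zero hY
    | succ m ih =>
      have := hcon (m * k)
      have h2 : (m + 1) * k = m * k + k := by ring
      rw [h2, pow_succ]
      omega
  have hle : ∀ m : ℕ, 1 ≤ m → (2 : ℝ) ^ m ≤ ((k : ℝ) + 2) ^ Y * (m : ℝ) ^ Y := by
    intro m hm
    have h1 := (hgrow m).trans (blk_poly Y (m * k))
    have h2 : m * k + 2 ≤ (k + 2) * m := by nlinarith
    have h3 : 2 ^ m ≤ ((k + 2) * m) ^ Y := h1.trans (Nat.pow_le_pow_left h2 Y)
    rw [mul_pow] at h3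
    exact_mod_cast h3
  have hlim := tendsto_pow_const_div_const_pow_of_one_lt Y (r := (2 : ℝ)) (by norm_num)
  have hpos : (0 : ℝ) < 1 / (2 * ((k : ℝ) + 2) ^ Y) := by positivity
  have hev := (hlim.eventually_lt_const hpos).and (eventually_ge_atTop 1)
  obtain ⟨m, hm1, hm2⟩ := hev.exists
  have h1 := hle m hm2
  have h2 : (0 : ℝ) < 2 ^ m := by positivity
  rw [div_lt_div_iff₀ h2 (by positivity)] at hm1
  have h3 : (0 : ℝ) ≤ ((k : ℝ) + 2) ^ Y * (m : ℝ) ^ Y := by positivity
  nlinarith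

lemma card_coprime (Q t : ℕ) :
    ((Finset.Icc 1 (Q * t)).filter (fun r => Q.Coprime r)).card = t * Q.totient := by
  induction t with
  | zero => simp
  | succ t ih =>
    have hI : Finset.Icc 1 (Q * (t + 1)) = Finset.Icc 1 (Q * t) ∪
        Finset.Ico (Q * t + 1) (Q * t + 1 + Q) := by
      ext x
      simp only [Finset.mem_Icc, Finset.mem_union, Finset.mem_Ico]
      rw [mul_add, mul_one]
      omega
    rw [hI, Finset.filter_union, Finset.card_union_of_disjoint, ih,
      Nat.filter_coprime_Ico_eq_totient]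
    · ring
    · apply Finset.disjoint_filter_filter
      rw [Finset.disjoint_left]
      intro x
      simp only [Finset.mem_Icc, Finset.mem_Ico]
      omega

/-- Coprimality of smooth and rough parts. -/
lemma coprime_of {Y Q s r : ℕ} (hs : s ∈ Nat.smoothNumbers Y)
    (hQ : ∀ p : ℕ, p.Prime → p < Y → p ∣ Q) (hr : Q.Coprime r) : s.Coprime r := by
  rw [Nat.coprime_iff_gcd_eq_one]
  by_contra hne
  obtain ⟨p, hp, hpd⟩ := Nat.exists_prime_and_dvd hne
  have h1 : p ∣ s := hpd.trans (Nat.gcd_dvd_left _ _)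
  have h2 : p ∣ r := hpd.trans (Nat.gcd_dvd_right _ _)
  have h3 : p < Y := hs.2 p (by rw [Nat.mem_primeFactorsList hs.1]; exact ⟨hp, h1⟩)
  have h4 : p ∣ Q := hQ p hp h3
  have h5 : p ∣ Nat.gcd Q r := Nat.dvd_gcd h4 h2
  rw [hr] at h5
  exact hp.one_lt.ne' (Nat.dvd_one.mp h5)

/-- The generating set. -/
noncomputable def genA (h j : ℕ) : Finset ℕ :=
  by classical exact
    (Finset.Ioc (2 ^ j) (2 ^ (j + h))).filter (fun s => s ∈ Nat.smoothNumbers (2 ^ h))

lemma mem_genA {h j s : ℕ} :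
    s ∈ genA h j ↔ (2 ^ j < s ∧ s ≤ 2 ^ (j + h)) ∧ s ∈ Nat.smoothNumbers (2 ^ h) := by
  classical
  simp [genA]

lemma genA_card (h j : ℕ) : (genA h j).card ≤ ∑ i ∈ Finset.range h, (blk (2 ^ h) (j + i)).card := by
  classical
  have hsub : genA h j ⊆ (Finset.range h).biUnion (fun i => blk (2 ^ h) (j + i)) := by
    intro s hs
    rw [mem_genA] at hs
    obtain ⟨⟨h1, h2⟩, h3⟩ := hs
    -- find the block
    have hex : ∃ i, s ≤ 2 ^ (j + i) := ⟨h, h2⟩
    let i := Nat.find hex
    have hi : s ≤ 2 ^ (j + i) := Nat.find_spec hex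
    have hi0 : i ≠ 0 := by
      intro h0
      rw [h0] at hi
      simp at hi
      omega
    have hih : i ≤ h := Nat.find_min' hex h2
    have hlt : ¬ s ≤ 2 ^ (j + (i - 1)) := Nat.find_min hex (by omega)
    rw [Finset.mem_biUnion]
    refine ⟨i - 1, Finset.mem_range.mpr (by omega), mem_blk.mpr ⟨⟨by omega, ?_⟩, h3⟩⟩
    have : j + (i - 1) + 1 = j + i := by omega
    rw [this]
    exact hi
  exact (Finset.card_le_card hsub).trans Finset.card_biUnion_le

lemma D_le (h j : ℕ) : D (genA h j) (2 ^ (j + h)) ≤ (genA h j).card := by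
  classical
  apply Finset.card_le_card
  intro m hm
  simp only [Finset.mem_filter, Finset.mem_Icc] at hm
  obtain ⟨⟨h1, h2⟩, a, ha, k, rfl⟩ := hm
  rw [mem_genA] at ha ⊢
  obtain ⟨⟨ha1, ha2⟩, ha3⟩ := ha
  have hk0 : 0 < k := by
    rcases Nat.eq_zero_or_pos k with h0 | h0
    · subst h0; simp at h1
    · exact h0
  have hk : k < 2 ^ h := by
    by_contra hge
    push Not at hge
    have : 2 ^ j * 2 ^ h < a * k := by
      calc 2 ^ j * 2 ^ h < a * 2 ^ h := by
            apply Nat.mul_lt_mul_of_pos_right ha1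
            positivity
        _ ≤ a * k := Nat.mul_le_mul_left _ hge
    rw [← pow_add] at this
    omega
  refine ⟨⟨lt_of_lt_of_le ha1 (Nat.le_mul_of_pos_right a hk0), h2⟩, ?_⟩
  apply Nat.mul_mem_smoothNumbers ha3
  rw [Nat.mem_smoothNumbers]
  refine ⟨hk0.ne', ?_⟩
  intro p hp
  exact lt_of_le_of_lt (Nat.le_of_mem_primeFactorsList hp) hk

lemma D_ge {h j : ℕ} (hh : 1 ≤ h) (Q F : ℕ) (hQ : ∀ p : ℕ, p.Prime → p < 2 ^ h → p ∣ Q)
    (hdiv : ∀ s ∈ blk (2 ^ h) j, s ∣ F) :
    ∑ s ∈ blk (2 ^ h) j, (F / s) * Q.totient ≤ D (genA h j) (Q * F) := by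
  classical
  let U : ℕ → Finset ℕ := fun s =>
    ((Finset.Icc 1 (Q * (F / s))).filter (fun r => Q.Coprime r)).image (fun r => s * r)
  have hUcard : ∀ s ∈ blk (2 ^ h) j, (U s).card = (F / s) * Q.totient := by
    intro s hs
    have hs' := mem_blk.mp hs
    have hspos : 0 < s := by omega
    simp only [U]
    rw [Finset.card_image_of_injective, card_coprime]
    intro a b hab
    exact Nat.eq_of_mul_eq_mul_left hspos hab
  have hdisj : ∀ s ∈ blk (2 ^ h) j, ∀ t ∈ blk (2 ^ h) j, s ≠ t → Disjoint (U s) (U t) := by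
    intro s hs t ht hst
    have hs' := mem_blk.mp hs
    have ht' := mem_blk.mp ht
    rw [Finset.disjoint_left]
    intro m hm1 hm2
    simp only [U, Finset.mem_image, Finset.mem_filter] at hm1 hm2
    obtain ⟨r, ⟨_, hr⟩, rfl⟩ := hm1
    obtain ⟨r', ⟨_, hr'⟩, heq⟩ := hm2
    apply hst
    have c1 : s.Coprime r' := coprime_of hs'.2 hQ hr'
    have c2 : t.Coprime r := coprime_of ht'.2 hQ hr
    apply Nat.dvd_antisymm
    · have : s ∣ t * r' := by rw [heq]; exact Dvd.intro _ rfl
      exact c1.dvd_of_dvd_mul_right this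
    · have : t ∣ s * r := by rw [← heq]; exact Dvd.intro _ rfl
      exact c2.dvd_of_dvd_mul_right this
  have hsub : (blk (2 ^ h) j).biUnion U ⊆
      (Finset.Icc 1 (Q * F)).filter (fun m => ∃ a ∈ genA h j, a ∣ m) := by
    intro m hm
    rw [Finset.mem_biUnion] at hm
    obtain ⟨s, hs, hm⟩ := hm
    simp only [U, Finset.mem_image, Finset.mem_filter, Finset.mem_Icc] at hm
    obtain ⟨r, ⟨⟨hr1, hr2⟩, hr⟩, rfl⟩ := hm
    have hs' := mem_blk.mp hs
    have hspos : 0 < s := by omega
    simp only [Finset.mem_filter, Finset.mem_Icc]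
    refine ⟨⟨Nat.mul_pos hspos hr1, ?_⟩, s, ?_, Dvd.intro _ rfl⟩
    · calc s * r ≤ s * (Q * (F / s)) := Nat.mul_le_mul_left _ hr2
        _ = Q * (s * (F / s)) := by ring
        _ = Q * F := by rw [Nat.mul_div_cancel' (hdiv s hs)]
    · rw [mem_genA]
      refine ⟨⟨hs'.1.1, hs'.1.2.trans ?_⟩, hs'.2⟩
      apply Nat.pow_le_pow_right (by norm_num)
      omega
  calc ∑ s ∈ blk (2 ^ h) j, (F / s) * Q.totient = ∑ s ∈ blk (2 ^ h) j, (U s).card := by
        apply Finset.sum_congr rfl
        intro s hs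
        rw [hUcard s hs]
    _ = ((blk (2 ^ h) j).biUnion U).card := by
        rw [Finset.card_biUnion hdisj]
    _ ≤ D (genA h j) (Q * F) := Finset.card_le_card hsub

/-- `∏_{p < N} (1 - 1 / p)` over primes. -/
noncomputable def g (N : ℕ) : ℝ := ∏ p ∈ (Finset.range N).filter Nat.Prime, (1 - 1 / (p : ℝ))

lemma g_pos (N : ℕ) : 0 < g N := by
  apply Finset.prod_pos
  intro p hp
  have hp2 : 2 ≤ p := (Finset.mem_filter.mp hp).2.two_le
  have : (2 : ℝ) ≤ p := by exact_mod_cast hp2
  rw [sub_pos, div_lt_one (by linarith)]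
  linarith

lemma g_succ_le (N : ℕ) (hN : 1 ≤ N) : g N * (1 - 1 / (N : ℝ)) ≤ g (N + 1) := by
  unfold g
  rw [Finset.range_add_one, Finset.filter_insert]
  split_ifs with hp
  · rw [Finset.prod_insert (by simp)]
    rw [mul_comm]
  · have h1 : 0 < g N := g_pos N
    have h2 : (0 : ℝ) ≤ 1 / (N : ℝ) := by positivity
    have h3 : g N * (1 - 1 / (N : ℝ)) ≤ g N * 1 := by
      apply mul_le_mul_of_nonneg_left _ h1.le
      linarith
    rw [mul_one] at h3
    exact h3

lemma g_succ_of_not_prime (N : ℕ) (hN : ¬ N.Prime) : g (N + 1) = g N := by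
  unfold g
  rw [Finset.range_add_one, Finset.filter_insert, if_neg hN]

lemma g_lower (m : ℕ) : 1 / (4 * (2 * (m : ℝ) + 1)) ≤ g (2 * (m + 1) + 1) ^ 2 := by
  induction m with
  | zero =>
    have : g 3 = 1 / 2 := by
      have h0 : (Finset.range 3).filter Nat.Prime = {2} := by decide
      unfold g
      rw [h0]
      norm_num
    simp only [zero_add, mul_one]
    norm_num
    rw [this]
    norm_num
  | succ m ih =>
    have h1 : g (2 * (m + 1 + 1) + 1) = g (2 * (m + 1) + 1 + 1) := by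
      have : 2 * (m + 1 + 1) + 1 = (2 * (m + 1) + 1 + 1) + 1 := by ring
      rw [this]
      apply g_succ_of_not_prime
      intro hp
      have h2 : 2 ∣ 2 * (m + 1) + 1 + 1 := ⟨m + 2, by ring⟩
      have := (Nat.prime_dvd_prime_iff_eq Nat.prime_two hp).mp h2
      omega
    have h2 := g_succ_le (2 * (m + 1) + 1) (by omega)
    rw [h1]
    have hk : (0 : ℝ) < 2 * (m : ℝ) + 1 := by positivity
    push_cast at h2 ⊢
    set G := g (2 * (m + 1) + 1) with hG
    have hGpos : 0 < G := g_pos _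
    have h3 : (0 : ℝ) < 1 - 1 / (2 * ((m : ℝ) + 1) + 1) := by
      rw [sub_pos, div_lt_one (by positivity)]
      have : (0 : ℝ) ≤ m := by positivity
      linarith
    have h4 : (G * (1 - 1 / (2 * ((m : ℝ) + 1) + 1))) ^ 2 ≤ g (2 * (m + 1) + 1 + 1) ^ 2 := by
      apply pow_le_pow_left₀ (by positivity) h2
    refine le_trans ?_ h4
    rw [mul_pow]
    calc 1 / (4 * (2 * ((m : ℝ) + 1) + 1))
        ≤ 1 / (4 * (2 * (m : ℝ) + 1)) * (1 - 1 / (2 * ((m : ℝ) + 1) + 1)) ^ 2 := by
          rw [div_mul_eq_mul_div, div_le_div_iff₀ (by positivity) (by positivity)]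
          have h5 : (1 - 1 / (2 * ((m : ℝ) + 1) + 1)) ^ 2
              = (2 * (m : ℝ) + 2) ^ 2 / (2 * (m : ℝ) + 3) ^ 2 := by
            field_simp
            ring
          rw [h5]
          have h6 : 1 * ((2 * (m : ℝ) + 2) ^ 2 / (2 * (m : ℝ) + 3) ^ 2) *
              (4 * (2 * ((m : ℝ) + 1) + 1))
              = 4 * (2 * (m : ℝ) + 2) ^ 2 / (2 * (m : ℝ) + 3) := by
            field_simp
            ring
          rw [h6, one_mul, le_div_iff₀ (by positivity)]
          nlinarith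
      _ ≤ G ^ 2 * (1 - 1 / (2 * ((m : ℝ) + 1) + 1)) ^ 2 := by
          apply mul_le_mul_of_nonneg_right ih (by positivity)

lemma totient_factorial (N : ℕ) : ((N.factorial).totient : ℝ) / (N.factorial : ℝ) = g (N + 1) := by
  have h := Nat.totient_eq_mul_prod_factors N.factorial
  have hpf : N.factorial.primeFactors = (Finset.range (N + 1)).filter Nat.Prime := by
    ext p
    simp only [Nat.mem_primeFactors, Finset.mem_filter, Finset.mem_range]
    constructor
    · rintro ⟨hp, hd, _⟩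
      exact ⟨by have := (hp.dvd_factorial).mp hd; omega, hp⟩
    · rintro ⟨hlt, hp⟩
      exact ⟨hp, (hp.dvd_factorial).mpr (by omega), Nat.factorial_ne_zero _⟩
  rw [hpf] at h
  have h2 : ((N.factorial).totient : ℝ) = (N.factorial : ℝ) * g (N + 1) := by
    unfold g
    have := congrArg (fun q : ℚ => (q : ℝ)) h
    push_cast at this
    simpa [one_div] using this
  rw [h2]
  have : (N.factorial : ℝ) ≠ 0 := by exact_mod_cast Nat.factorial_ne_zero N
  field_simp

/-- **No constant works**, along multiples of a fixed modulus. -/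
theorem unbounded_mul (C : ℝ) : ∃ n : ℕ, ∃ A : Finset ℕ, A.Nonempty ∧
    (∀ a ∈ A, 0 < a ∧ a ≤ n) ∧ ∃ M : ℕ, 0 < M ∧
      ∀ k : ℕ, C * ((D A n : ℝ) / (n : ℝ)) * ((M : ℝ) * k) ≤ (D A (M * k) : ℝ) := by
  classical
  -- choose `t`
  have hlim := tendsto_pow_const_div_const_pow_of_one_lt 1 (r := (2 : ℝ)) (by norm_num)
  have hpos : (0 : ℝ) < 1 / (16 * (|C| + 1)) := by positivity
  have hev := (hlim.eventually_lt_const hpos).and (eventually_ge_atTop 1)
  obtain ⟨t, ht1, ht2⟩ := hev.exists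
  have h2t : (0 : ℝ) < 2 ^ t := by positivity
  rw [pow_one, div_lt_div_iff₀ h2t (by positivity)] at ht1
  have htC : 16 * C * t ≤ 2 ^ t := by
    have h1 : C ≤ |C| + 1 := by linarith [le_abs_self C]
    have h2 : (0 : ℝ) ≤ t := by positivity
    nlinarith
  set h := 2 * t with hh
  have hY : 3 ≤ 2 ^ h := by
    have : 2 ^ 2 ≤ 2 ^ h := Nat.pow_le_pow_right (by norm_num) (by omega)
    omega
  obtain ⟨j, hj⟩ := exists_slow hY (h - 1)
  set b := (blk (2 ^ h) j).card with hb
  have hbpos : 1 ≤ b := (blk_zero hY).trans (blk_mono' hY (Nat.zero_le j))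
  -- parameters
  set Q := (2 ^ h).factorial with hQ
  set F := (2 ^ (j + 1)).factorial with hF
  have hQpos : 0 < Q := Nat.factorial_pos _
  have hFpos : 0 < F := Nat.factorial_pos _
  refine ⟨2 ^ (j + h), genA h j, ?_, ?_, Q * F, Nat.mul_pos hQpos hFpos, ?_⟩
  · -- nonempty
    obtain ⟨s, hs⟩ := Finset.one_le_card.mp hbpos
    have hs' := mem_blk.mp hs
    refine ⟨s, mem_genA.mpr ⟨⟨hs'.1.1, hs'.1.2.trans ?_⟩, hs'.2⟩⟩
    apply Nat.pow_le_pow_right (by norm_num)
    omega
  · intro a ha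
    have ha' := mem_genA.mp ha
    exact ⟨lt_of_le_of_lt (Nat.zero_le _) ha'.1.1, ha'.1.2⟩
  · -- main inequality
    intro k
    have hup : (D (genA h j) (2 ^ (j + h)) : ℝ) ≤ 2 * h * b := by
      have h1 : D (genA h j) (2 ^ (j + h)) ≤ h * (2 * b) := by
        calc D (genA h j) (2 ^ (j + h)) ≤ (genA h j).card := D_le h j
          _ ≤ ∑ i ∈ Finset.range h, (blk (2 ^ h) (j + i)).card := genA_card h j
          _ ≤ ∑ i ∈ Finset.range h, 2 * b := by
              apply Finset.sum_le_sum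
              intro i hi
              rw [Finset.mem_range] at hi
              exact (blk_mono' hY (by omega : j + i ≤ j + (h - 1))).trans hj
          _ = h * (2 * b) := by simp
      calc (D (genA h j) (2 ^ (j + h)) : ℝ) ≤ ((h * (2 * b) : ℕ) : ℝ) := by exact_mod_cast h1
        _ = 2 * h * b := by push_cast; ring
    have hlow : g (2 ^ h + 1) * b / 2 ^ (j + 1) * (Q * F * k)
        ≤ (D (genA h j) (Q * F * k) : ℝ) := by
      have hdv : ∀ s ∈ blk (2 ^ h) j, s ∣ F * k := by
        intro s hs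
        have hs' := mem_blk.mp hs
        exact Dvd.dvd.mul_right (Nat.dvd_factorial (by omega) hs'.1.2) k
      have h1 := D_ge (h := h) (j := j) (by omega) Q (F * k) (by
        intro p hp hlt
        exact (hp.dvd_factorial).mpr hlt.le) hdv
      rw [← mul_assoc] at h1
      have h2 : ((∑ s ∈ blk (2 ^ h) j, (F * k / s) * Q.totient : ℕ) : ℝ)
          ≤ D (genA h j) (Q * F * k) := by
        exact_mod_cast h1
      refine le_trans ?_ h2
      push_cast
      have h3 : ∀ s ∈ blk (2 ^ h) j, ((F : ℝ) * k) / 2 ^ (j + 1) * Q.totient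
          ≤ ((F * k / s : ℕ) : ℝ) * Q.totient := by
        intro s hs
        have hs' := mem_blk.mp hs
        have hspos : (0 : ℝ) < s := by
          have : 0 < s := by omega
          exact_mod_cast this
        rw [Nat.cast_div (hdv s hs) hspos.ne']
        push_cast
        apply mul_le_mul_of_nonneg_right _ (by positivity)
        apply div_le_div_of_nonneg_left (by positivity) hspos
        exact_mod_cast hs'.1.2
      calc g (2 ^ h + 1) * b / 2 ^ (j + 1) * (Q * F * k)
          = ∑ s ∈ blk (2 ^ h) j, ((F : ℝ) * k) / 2 ^ (j + 1) * Q.totient := by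
            rw [Finset.sum_const, nsmul_eq_mul, ← hb, ← totient_factorial, ← hQ]
            have : (Q : ℝ) ≠ 0 := by positivity
            field_simp
        _ ≤ ∑ s ∈ blk (2 ^ h) j, ((F * k / s : ℕ) : ℝ) * Q.totient := Finset.sum_le_sum h3
    have hg : 1 / (2 * 2 ^ t) ≤ g (2 ^ h + 1) := by
      have h1 := g_lower (2 ^ (h - 1) - 1)
      have h2 : 2 * (2 ^ (h - 1) - 1 + 1) + 1 = 2 ^ h + 1 := by
        have : 1 ≤ 2 ^ (h - 1) := Nat.one_le_two_pow
        have h3 : 2 ^ h = 2 * 2 ^ (h - 1) := by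
          rw [← pow_succ']
          congr 1
          omega
        omega
      rw [h2] at h1
      have h4 : (2 : ℝ) * ((2 ^ (h - 1) - 1 : ℕ) : ℝ) + 1 ≤ 2 ^ h := by
        have : 2 * (2 ^ (h - 1) - 1) + 1 ≤ 2 ^ h := by omega
        exact_mod_cast this
      have h5 : (1 / (2 * 2 ^ t) : ℝ) ^ 2 ≤ g (2 ^ h + 1) ^ 2 := by
        refine le_trans ?_ h1
        rw [div_pow, one_pow]
        apply one_div_le_one_div_of_le
        · positivity
        · rw [mul_pow, ← pow_mul, mul_comm t 2, ← hh]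
          linarith
      exact (pow_le_pow_iff_left₀ (by positivity) (g_pos _).le (by norm_num)).mp h5
    refine le_trans ?_ hlow
    push_cast
    have hQF : (0 : ℝ) ≤ (Q : ℝ) * F * k := by positivity
    apply mul_le_mul_of_nonneg_right _ hQF
    rcases le_or_gt C 0 with hC | hC
    · have h1 : C * ((D (genA h j) (2 ^ (j + h)) : ℝ) / 2 ^ (j + h)) ≤ 0 :=
        mul_nonpos_of_nonpos_of_nonneg hC (by positivity)
      have h2 : 0 ≤ g (2 ^ h + 1) * b / 2 ^ (j + 1) := by
        have := g_pos (2 ^ h + 1)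
        positivity
      linarith
    · have h1 : C * ((D (genA h j) (2 ^ (j + h)) : ℝ) / 2 ^ (j + h))
          ≤ C * (2 * h * b / 2 ^ (j + h)) := by
        apply mul_le_mul_of_nonneg_left _ hC.le
        apply div_le_div_of_nonneg_right hup (by positivity)
      refine h1.trans ?_
      have h2 : 1 / (2 * 2 ^ t) * b / 2 ^ (j + 1) ≤ g (2 ^ h + 1) * b / 2 ^ (j + 1) := by
        apply div_le_div_of_nonneg_right _ (by positivity)
        apply mul_le_mul_of_nonneg_right hg (by positivity)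
      refine le_trans ?_ h2
      have h3 : (2 : ℝ) ^ (j + h) = 2 ^ j * (2 ^ t * 2 ^ t) := by
        rw [pow_add, hh, two_mul, pow_add]
      rw [h3, pow_succ]
      have hb' : (0 : ℝ) < b := by exact_mod_cast hbpos
      have hhR : (h : ℝ) = 2 * t := by rw [hh]; push_cast; ring
      rw [hhR]
      have h4 : C * (2 * (2 * t) * b / (2 ^ j * (2 ^ t * 2 ^ t)))
          = (16 * C * t) * (b / (4 * 2 ^ j * (2 ^ t * 2 ^ t))) := by
        field_simp
        ring
      have h5 : 1 / (2 * 2 ^ t) * (b : ℝ) / (2 ^ j * 2)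
          = 2 ^ t * (b / (4 * 2 ^ j * (2 ^ t * 2 ^ t))) := by
        field_simp
        ring
      rw [h4, h5]
      apply mul_le_mul_of_nonneg_right htC
      positivity

lemma D_mono (A : Finset ℕ) : Monotone (D A) := by
  intro a b hab
  apply Finset.card_le_card
  apply Finset.filter_subset_filter
  exact Finset.Icc_subset_Icc_right hab

/-- **No constant works**, and the inequality fails for all large `x`. -/
theorem unbounded (C : ℝ) : ∃ n : ℕ, ∃ A : Finset ℕ, A.Nonempty ∧ (∀ a ∈ A, 0 < a ∧ a ≤ n) ∧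
    ∃ x₀ : ℕ, n < x₀ ∧ ∀ x : ℕ, x₀ ≤ x →
      C * ((D A n : ℝ) / (n : ℝ)) < (D A x : ℝ) / (x : ℝ) := by
  obtain ⟨n, A, hA, hAn, M, hM, hmain⟩ := unbounded_mul (|C| + 1)
  obtain ⟨a, ha⟩ := hA
  have hn : 0 < n := lt_of_lt_of_le (hAn a ha).1 (hAn a ha).2
  have hDn : 1 ≤ D A n := by
    unfold D
    rw [Finset.one_le_card]
    exact ⟨a, Finset.mem_filter.mpr ⟨Finset.mem_Icc.mpr ⟨(hAn a ha).1, (hAn a ha).2⟩,
      a, ha, dvd_refl a⟩⟩
  have hR : (0 : ℝ) < (D A n : ℝ) / n := by
    have h1 : (0 : ℝ) < D A n := by exact_mod_cast hDn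
    have h2 : (0 : ℝ) < n := by exact_mod_cast hn
    positivity
  set R : ℝ := (D A n : ℝ) / n with hRdef
  obtain ⟨k₀, hk₀⟩ := exists_nat_gt ((|C| + 1) * M)
  refine ⟨n, A, ⟨a, ha⟩, hAn, k₀ + n + 1, by omega, ?_⟩
  intro x hx
  have hxpos : 0 < x := by omega
  have hxR : (0 : ℝ) < x := by exact_mod_cast hxpos
  rw [lt_div_iff₀ hxR]
  have h1 := hmain (x / M)
  have h2 : D A (M * (x / M)) ≤ D A x := D_mono A (Nat.mul_div_le x M)
  have h3 : (D A (M * (x / M)) : ℝ) ≤ D A x := by exact_mod_cast h2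
  have h4 : (x : ℝ) - M ≤ (M : ℝ) * ((x / M : ℕ) : ℝ) := by
    have : x < M * (x / M) + M := by
      have := Nat.lt_mul_div_succ x hM
      rw [mul_add, mul_one] at this
      exact this
    have : (x : ℝ) < (M : ℝ) * ((x / M : ℕ) : ℝ) + M := by exact_mod_cast this
    linarith
  have h5 : (k₀ : ℝ) ≤ x := by
    have : k₀ ≤ x := by omega
    exact_mod_cast this
  have hC1 : (0 : ℝ) < |C| + 1 := by positivity
  have h6 : (|C| + 1) * R * ((x : ℝ) - M) ≤ D A x := by
    refine le_trans ?_ (h1.trans h3)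
    apply mul_le_mul_of_nonneg_left h4
    positivity
  have h7 : C * R * x < (|C| + 1) * R * ((x : ℝ) - M) := by
    have h8 : C * x < (|C| + 1) * ((x : ℝ) - M) := by
      have h9 : C * x ≤ |C| * x := mul_le_mul_of_nonneg_right (le_abs_self C) hxR.le
      nlinarith
    calc C * R * x = R * (C * x) := by ring
      _ < R * ((|C| + 1) * ((x : ℝ) - M)) := mul_lt_mul_of_pos_left h8 hR
      _ = (|C| + 1) * R * ((x : ℝ) - M) := by ring
  linarith

end Pool.Agent.Lib.MP_e664f7_nt
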